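import Pool.Agent.H71.CW.Wid

/-!
Module W5: points outside a set which is not small and has few classes have few germs.
-/

set_option autoImplicit false

open Set

namespace Pool.Agent.CW

theorem pf_W5 : W5 := by
  classical
  intro c n k hc N D hN A hF hDA Y hY hdf
  obtain ⟨f, hf⟩ := hF
  let g : ℕ → Fin k → Fin n × Fin n := fun y j =>
    if h : ∃ a ∈ A, f a = j then (⟨c h.choose y, hc _ _⟩, ⟨c y h.choose, hc _ _⟩)
    else (⟨c 0 0, hc 0 0⟩, ⟨c 0 0, hc 0 0⟩)
  have hinj : ∀ y ∈ Y, ∀ y' ∈ Y, g y = g y' → y = y' := by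
    intro y hy y' hy' hg
    by_contra hne
    apply hdf y hy y' hy' hne
    refine hN.sub _ hDA _ ?_
    rintro z ⟨hzD, hz⟩
    refine ⟨hzD, fun hzA => hz ?_⟩
    have hex : ∃ a ∈ A, f a = f z := ⟨z, hzA, rfl⟩
    have hch := hex.choose_spec
    have h1 := hf z hzA hex.choose hch.1 hch.2.symm y (hY y hy).2
    have h2 := hf z hzA hex.choose hch.1 hch.2.symm y' (hY y' hy').2
    have h3 := congrFun hg (f z)
    simp only [g, dif_pos hex, Prod.mk.injEq, Fin.mk.injEq] at h3
    simp only [ee, Prod.mk.injEq] at h1 h2 ⊢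
    refine ⟨?_, ?_⟩
    · rw [h1.2, h2.2, h3.2]
    · rw [h1.1, h2.1, h3.1]
  have hcard := Finset.card_le_card_of_injOn g (s := Y) (t := Finset.univ)
    (fun y _ => Finset.mem_coe.2 (Finset.mem_univ _)) (fun y hy y' hy' h => hinj y hy y' hy' h)
  refine hcard.trans (le_of_eq ?_)
  rw [Finset.card_univ, Fintype.card_fun, Fintype.card_prod, Fintype.card_fin, Fintype.card_fin]

end Pool.Agent.CW
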