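import Pool.Agent.H71.CW.Wid

/-!
Module WGER: in a structure of finite width a decided set has finitely many germs.
-/

set_option autoImplicit false

open Set

namespace Pool.Agent.CW

theorem pf_WGER (h1 : W1) (h3 : W3) (h4 : W4) (h5 : W5) : WGER := by
  classical
  intro c n k hc hW N D hN hD hdec
  refine ⟨(n * n) ^ (k + 1) + (k + 1), fun Y hYD hdf => ?_⟩
  rcases Y.eq_empty_or_nonempty with hY0 | hY0
  · rw [hY0, Finset.card_empty]
    exact Nat.zero_le _
  let U : Ultrafilter ℕ := Filter.hyperfilter ℕ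
  have hU : ∀ n, {m | n ≤ m} ∈ U := by
    intro n
    exact Nat.hyperfilter_le_atTop (Filter.mem_atTop n)
  have key : ∀ (s : ℕ) (P : ℕ → Finset ℕ) (Y' : Finset ℕ), Y'.card = s → Y' ⊆ Y → Y'.Nonempty →
      {n | MW c k (Finset.range n) (P n) ∧ Y ∩ P n = Y'} ∈ U →
      D \ {z | {n | z ∈ P n} ∈ U} ∈ N → Y.card ≤ (n * n) ^ (k + 1) + (k + 1) := by
    intro s
    induction s using Nat.strong_induction_on with
    | _ s ih =>
      intro P Y' hs hYY hne hP hDP
      have hcase : Y'.card ≤ k + 1 → Y.card ≤ (n * n) ^ (k + 1) + (k + 1) := by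
        intro hle
        have hFew : Few c (k + 1) {z | {n | z ∈ P n} ∈ U}ᶜ {z | {n | z ∈ P n} ∈ U} := by
          refine h3 c (k + 1) U hU P (Filter.mem_of_superset hP ?_)
          rintro n ⟨hn, -⟩
          exact (h1 c k _ _ hn).2.2
        have h6 := h5 c n (k + 1) hc N D hN {z | {n | z ∈ P n} ∈ U} hFew hDP (Y \ Y')
          (by
            intro y hy
            rw [Finset.mem_sdiff] at hy
            refine ⟨hYD y hy.1, fun hyP => ?_⟩
            obtain ⟨j, hj1, hj2⟩ := Ultrafilter.nonempty_of_mem (Filter.inter_mem hP hyP)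
            apply hy.2
            rw [← hj1.2, Finset.mem_inter]
            exact ⟨hy.1, hj2⟩)
          (by
            intro x hx y hy hxy
            exact hdf x (Finset.mem_sdiff.1 hx).1 y (Finset.mem_sdiff.1 hy).1 hxy)
        have h7 : Y.card ≤ (Y \ Y').card + Y'.card := by
          rw [Finset.card_sdiff_add_card_eq_card hYY]
        omega
      rcases h4 c k U hU N D hN hD hdec P Y' (fun y hy => hYD y (hYY hy)) hne
        (fun x hx y hy hxy => hdf x (hYY hx) y (hYY hy) hxy)
        (Filter.mem_of_superset hP (by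
          rintro n ⟨hn, hn2⟩
          refine ⟨hn, ?_⟩
          rw [← hn2]
          exact Finset.inter_subset_right)) hDP with hle | ⟨P', Y'', hsub, hne'', hlt, hP', hDP'⟩
      · exact hcase hle
      · refine ih Y''.card (by omega) P' Y'' rfl (hsub.trans hYY) hne'' ?_ hDP'
        refine Filter.mem_of_superset (Filter.inter_mem hP hP') ?_
        rintro j ⟨⟨-, hj2⟩, hj3, hj4, hj5⟩
        refine ⟨hj3, ?_⟩
        rw [← hj4, ← hj2]
        ext y
        simp only [Finset.mem_inter]
        constructor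
        · rintro ⟨hy1, hy2⟩
          exact ⟨⟨hy1, hj5 hy2⟩, hy2⟩
        · rintro ⟨⟨hy1, -⟩, hy2⟩
          exact ⟨hy1, hy2⟩
  refine key Y.card (fun n => Finset.range n) Y rfl (Finset.Subset.refl _) hY0 ?_ ?_
  · refine Filter.mem_of_superset (hU (Y.sup id + 1)) ?_
    intro j hj
    have hj' : Y.sup id + 1 ≤ j := hj
    refine ⟨hW _ ⟨0, Finset.mem_range.2 (by omega)⟩, ?_⟩
    rw [Finset.inter_eq_left]
    intro y hy
    rw [Finset.mem_range]
    have : y ≤ Y.sup id := Finset.le_sup (f := id) hy
    omega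
  · refine hN.fin _ ?_
    have : D \ {z | {n | z ∈ Finset.range n} ∈ U} = ∅ := by
      rw [Set.sdiff_eq_empty]
      intro z _
      refine Filter.mem_of_superset (hU (z + 1)) ?_
      intro j hj
      have hj' : z + 1 ≤ j := hj
      exact Finset.mem_range.2 (by omega)
    rw [this]
    exact Set.finite_empty

end Pool.Agent.CW
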